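import Mathlib

set_option autoImplicit false

open MeasureTheory Filter Topology Finset
open scoped ENNReal

namespace Pool.Agent.Results.MP_adc20b_pr.SlowSwitchingNotEvanescent

/-- A reaction `y → y'`, as the pair `(y, y')`. -/
abbrev Reaction (d : ℕ) : Type := (Fin d → ℕ) × (Fin d → ℕ)

/-- Environments `Fin n`, species `Fin d`: the reactions and rate constants of each environment,
and the irreducible rate matrix of the environment. -/
structure Network (n d : ℕ) where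
  R : Fin n → Finset (Reaction d)
  c : Fin n → Reaction d → ℝ
  c_pos : ∀ i, ∀ r ∈ R i, 0 < c i r
  Q : Fin n → Fin n → ℝ
  Q_nonneg : ∀ i j, i ≠ j → 0 ≤ Q i j
  Q_sum : ∀ i, ∑ j, Q i j = 0
  Q_irred : ∀ i j, Relation.ReflTransGen (fun a b => a ≠ b ∧ 0 < Q a b) i j

variable {n d : ℕ}

/-- Every source complex is `0` or a unit vector. -/
def Monomolecular (N : Network n d) : Prop :=
  ∀ i, ∀ r ∈ N.R i, r.1 = 0 ∨ ∃ l, r.1 = Pi.single l 1

/-- Stochastic mass-action kinetics: `c ∏_m x_m (x_m - 1) ⋯ (x_m - y_m + 1)`. -/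
noncomputable def lam (N : Network n d) (i : Fin n) (r : Reaction d) (x : Fin d → ℕ) : ℝ :=
  N.c i r * ∏ m, ((x m).descFactorial (r.1 m) : ℝ)

/-- The matrix `M_i` (see `M_spec` for its defining property). -/
noncomputable def M (N : Network n d) (i : Fin n) (m l : Fin d) : ℝ :=
  ∑ r ∈ (N.R i).filter (fun r => r.1 = Pi.single l 1), N.c i r * ((r.2 m : ℝ) - (r.1 m : ℝ))

theorem prod_desc_single (x : Fin d → ℕ) (l : Fin d) :
    ∏ m, ((x m).descFactorial ((Pi.single l 1 : Fin d → ℕ) m) : ℝ) = x l := by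
  rw [Finset.prod_eq_single l]
  · simp
  · intro m _ hm
    simp [hm]
  · intro h; exact absurd (Finset.mem_univ l) h

/-- The total drift is `M_i x` up to a bounded (constant) term. -/
theorem M_spec (N : Network n d) (hN : Monomolecular N) (i : Fin n) (x : Fin d → ℕ) (m : Fin d) :
    ∑ r ∈ N.R i, lam N i r x * ((r.2 m : ℝ) - (r.1 m : ℝ)) =
      ∑ l, M N i m l * (x l : ℝ) + ∑ r ∈ (N.R i).filter (fun r => r.1 = 0), N.c i r * (r.2 m : ℝ) := by
  classical
  have h1 : ∀ r ∈ N.R i, lam N i r x * ((r.2 m : ℝ) - (r.1 m : ℝ)) =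
      ∑ l, (if r.1 = Pi.single l 1 then N.c i r * ((r.2 m : ℝ) - (r.1 m : ℝ)) * (x l : ℝ) else 0) +
      (if r.1 = 0 then N.c i r * (r.2 m : ℝ) else 0) := by
    intro r hr
    rcases hN i r hr with h | ⟨l, h⟩
    · have h2 : ∀ l, ¬ (r.1 = Pi.single l 1) := by
        intro l h3
        rw [h] at h3
        have := congrFun h3 l
        simp at this
      rw [if_pos h, Finset.sum_eq_zero (fun l _ => if_neg (h2 l)), zero_add]
      unfold lam
      rw [h]
      simp
    · have h2 : r.1 ≠ 0 := by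
        intro h3
        rw [h] at h3
        have := congrFun h3 l
        simp at this
      rw [if_neg h2, add_zero, Finset.sum_eq_single l]
      · rw [if_pos h]
        unfold lam
        rw [h, prod_desc_single]
        ring
      · intro l' _ hl'
        rw [if_neg]
        intro h3
        rw [h] at h3
        have := congrFun h3 l
        rw [Pi.single_eq_same, Pi.single_eq_of_ne (Ne.symm hl')] at this
        exact one_ne_zero this
      · intro h; exact absurd (Finset.mem_univ l) h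
  rw [Finset.sum_congr rfl h1, Finset.sum_add_distrib, Finset.sum_comm]
  congr 1
  · refine Finset.sum_congr rfl fun l _ => ?_
    unfold M
    rw [Finset.sum_mul, Finset.sum_filter]
  · rw [Finset.sum_filter]

/-- States of the mixed process: species counts and environment. -/
abbrev State (n d : ℕ) : Type := (Fin d → ℕ) × Fin n

/-- Total jump rate. -/
noncomputable def total (N : Network n d) (κ : ℝ) (z : State n d) : ℝ :=
  ∑ r ∈ N.R z.2, lam N z.2 r z.1 + ∑ j ∈ univ.erase z.2, κ * N.Q z.2 j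

/-- Jump probabilities of the mixed process. -/
noncomputable def jump (N : Network n d) (κ : ℝ) (z b : State n d) : ℝ :=
  (∑ r ∈ N.R z.2, (if b = (z.1 - r.1 + r.2, z.2) then lam N z.2 r z.1 else 0) +
    ∑ j ∈ univ.erase z.2, (if b = (z.1, j) then κ * N.Q z.2 j else 0)) / total N κ z

/-- The mixed process `Z_κ` started from `z₀`, by its jump chain `Y`, holding times `τ` and the
process `X` they define: `X t = Y k` for `τ 0 + ⋯ + τ (k-1) ≤ t < τ 0 + ⋯ + τ k`. Given `Y`, the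
holding times are independent, exponential with parameters `total (Y k)`. -/
structure MixedProcess (N : Network n d) (κ : ℝ) (z₀ : State n d) {Ω : Type} [MeasurableSpace Ω]
    (ℙ : Measure Ω) where
  Y : ℕ → Ω → State n d
  τ : ℕ → Ω → ℝ
  X : ℝ → Ω → State n d
  Y_meas : ∀ k z, MeasurableSet {ω | Y k ω = z}
  τ_meas : ∀ k, Measurable (τ k)
  τ_pos : ∀ k ω, 0 < τ k ω
  X_eq : ∀ k t ω, ∑ j ∈ range k, τ j ω ≤ t → t < ∑ j ∈ range (k + 1), τ j ω → X t ω = Y k ω
  law : ∀ (k : ℕ) (z : ℕ → State n d) (s : ℕ → ℝ), (∀ j, 0 ≤ s j) →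
    ℙ {ω | ∀ j ≤ k, Y j ω = z j ∧ s j < τ j ω} =
      ENNReal.ofReal ((if z 0 = z₀ then 1 else 0) * (∏ j ∈ range k, jump N κ (z j) (z (j + 1))) *
        ∏ j ∈ range (k + 1), Real.exp (-(total N κ (z j)) * s j))

/-- `‖x‖₁` -/
def norm1 (x : Fin d → ℕ) : ℕ := ∑ m, x m

/-- The event that `‖X(t)‖₁ → ∞` as `t` tends to the lifetime `∑ τ_k` of the process (which is
infinite if the process does not explode). -/
def Escapes {N : Network n d} {κ : ℝ} {z₀ : State n d} {Ω : Type} [MeasurableSpace Ω]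
    {ℙ : Measure Ω} (Z : MixedProcess N κ z₀ ℙ) : Set Ω :=
  {ω | ∀ K : ℕ, ∃ t₀ : ℝ, (∃ k, t₀ < ∑ j ∈ range k, Z.τ j ω) ∧
    ∀ t ≥ t₀, (∃ k, t < ∑ j ∈ range k, Z.τ j ω) → K ≤ norm1 (Z.X t ω).1}

/-- The state `z₀` is not evanescent: the process started from `z₀` escapes with probability 0. -/
def NotEvanescent (N : Network n d) (κ : ℝ) (z₀ : State n d) : Prop :=
  ∀ (Ω : Type) [MeasurableSpace Ω] (ℙ : Measure Ω) [IsProbabilityMeasure ℙ]
    (Z : MixedProcess N κ z₀ ℙ), ℙ (Escapes Z) = 0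

section general

variable {N : Network n d} {κ : ℝ} {z₀ : State n d} {Ω : Type} [MeasurableSpace Ω]
    {ℙ : Measure Ω} [IsProbabilityMeasure ℙ] (Z : MixedProcess N κ z₀ ℙ)

theorem escapes_subset : Escapes Z ⊆ {ω | Tendsto (fun k => norm1 (Z.Y k ω).1) atTop atTop} := by
  intro ω hω
  rw [Set.mem_ofPred_eq, tendsto_atTop]
  intro K
  obtain ⟨t₀, ⟨k₀, hk₀⟩, h⟩ := hω K
  filter_upwards [eventually_ge_atTop k₀] with k hk
  have h1 : ∑ j ∈ range k₀, Z.τ j ω ≤ ∑ j ∈ range k, Z.τ j ω :=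
    Finset.sum_le_sum_of_subset_of_nonneg (Finset.range_subset_range.2 hk)
      (fun j _ _ => (Z.τ_pos j ω).le)
  have h2 : ∑ j ∈ range k, Z.τ j ω < ∑ j ∈ range (k + 1), Z.τ j ω := by
    rw [Finset.sum_range_succ]
    linarith [Z.τ_pos k ω]
  have h3 := h (∑ j ∈ range k, Z.τ j ω) (by linarith) ⟨k + 1, h2⟩
  rwa [Z.X_eq k _ ω le_rfl h2] at h3

theorem path_law (k : ℕ) (z : ℕ → State n d) :
    ℙ {ω | ∀ j ≤ k, Z.Y j ω = z j} =
      ENNReal.ofReal ((if z 0 = z₀ then 1 else 0) *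
        (∏ j ∈ range k, jump N κ (z j) (z (j + 1)))) := by
  have h := Z.law k z (fun _ => 0) (fun _ => le_rfl)
  simp only [mul_zero, Real.exp_zero, Finset.prod_const_one, mul_one] at h
  rw [← h]
  congr 1
  ext ω
  simp only [Set.mem_ofPred_eq]
  exact forall_congr' fun j => forall_congr' fun _ => (and_iff_left (Z.τ_pos j ω)).symm

theorem jump_nonneg (hκ : 0 < κ) (z b : State n d) : 0 ≤ jump N κ z b := by
  have hl : ∀ r ∈ N.R z.2, 0 ≤ lam N z.2 r z.1 := fun r hr =>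
    mul_nonneg (N.c_pos _ r hr).le (Finset.prod_nonneg fun _ _ => Nat.cast_nonneg _)
  have hq : ∀ j ∈ univ.erase z.2, 0 ≤ κ * N.Q z.2 j := fun j hj =>
    mul_nonneg hκ.le (N.Q_nonneg _ _ (Finset.ne_of_mem_erase hj).symm)
  unfold jump total
  apply div_nonneg
  · apply add_nonneg <;> apply Finset.sum_nonneg
    · intro r hr; split_ifs
      · exact hl r hr
      · exact le_rfl
    · intro j hj; split_ifs
      · exact hq j hj
      · exact le_rfl
  · exact add_nonneg (Finset.sum_nonneg hl) (Finset.sum_nonneg hq)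

/-- the Markov property of the jump chain -/
theorem markov (hκ : 0 < κ) (k : ℕ) (z : ℕ → State n d) (b : State n d) :
    ℙ {ω | (∀ j ≤ k, Z.Y j ω = z j) ∧ Z.Y (k + 1) ω = b} =
      ℙ {ω | ∀ j ≤ k, Z.Y j ω = z j} * ENNReal.ofReal (jump N κ (z k) b) := by
  set z' : ℕ → State n d := fun j => if j ≤ k then z j else b with hz'
  have h1 : {ω | (∀ j ≤ k, Z.Y j ω = z j) ∧ Z.Y (k + 1) ω = b} =
      {ω | ∀ j ≤ k + 1, Z.Y j ω = z' j} := by
    ext ω
    simp only [Set.mem_ofPred_eq, hz']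
    constructor
    · rintro ⟨h1, h2⟩ j hj
      by_cases h3 : j ≤ k
      · rw [if_pos h3]; exact h1 j h3
      · rw [if_neg h3]
        have : j = k + 1 := by omega
        rw [this]; exact h2
    · intro h
      refine ⟨fun j hj => ?_, ?_⟩
      · have := h j (by omega)
        rwa [if_pos hj] at this
      · have := h (k + 1) le_rfl
        rwa [if_neg (by omega)] at this
  rw [h1, path_law, path_law, ← ENNReal.ofReal_mul]
  · congr 1
    rw [Finset.prod_range_succ]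
    have h2 : z' 0 = z 0 := by simp [hz']
    have h3 : z' k = z k := by simp [hz']
    have h4 : z' (k + 1) = b := by simp [hz']
    rw [h2, h3, h4]
    have h5 : ∏ j ∈ range k, jump N κ (z' j) (z' (j + 1)) =
        ∏ j ∈ range k, jump N κ (z j) (z (j + 1)) := by
      refine Finset.prod_congr rfl fun j hj => ?_
      rw [Finset.mem_range] at hj
      simp only [hz']
      rw [if_pos hj.le, if_pos (by omega)]
    rw [h5]
    ring
  · apply mul_nonneg
    · split_ifs <;> norm_num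
    · exact Finset.prod_nonneg fun j _ => jump_nonneg hκ _ _

/-- expectation of a function of the jump chain as a countable sum over paths -/
theorem lintegral_Y (k : ℕ) (V : State n d → ℝ≥0∞) :
    ∫⁻ ω, V (Z.Y k ω) ∂ℙ = ∑' w : Fin (k + 1) → State n d,
      ℙ {ω | ∀ j : Fin (k + 1), Z.Y j ω = w j} * V (w (Fin.last k)) := by
  classical
  have hm : ∀ w : Fin (k + 1) → State n d,
      MeasurableSet {ω | ∀ j : Fin (k + 1), Z.Y j ω = w j} := by
    intro w
    rw [Set.ofPred_forall]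
    exact MeasurableSet.iInter fun j => Z.Y_meas _ _
  have h1 : ∀ ω, V (Z.Y k ω) = ∑' w : Fin (k + 1) → State n d,
      {ω | ∀ j : Fin (k + 1), Z.Y j ω = w j}.indicator (fun _ => V (w (Fin.last k))) ω := by
    intro ω
    rw [tsum_eq_single (fun j : Fin (k + 1) => Z.Y j ω)]
    · rw [Set.indicator_of_mem]
      · simp
      · intro j; rfl
    · intro w hw
      rw [Set.indicator_of_notMem]
      intro h
      exact hw (funext fun j => (h j).symm)
  simp only [h1]
  rw [lintegral_tsum (fun w => (measurable_const.indicator (hm w)).aemeasurable)]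
  refine tsum_congr fun w => ?_
  rw [lintegral_indicator_const (hm w), mul_comm]

theorem Y_super (hκ : 0 < κ) (V : State n d → ℝ≥0∞)
    (hV : ∀ z, ∑' b, ENNReal.ofReal (jump N κ z b) * V b ≤ V z) (k : ℕ) :
    ∫⁻ ω, V (Z.Y (k + 1) ω) ∂ℙ ≤ ∫⁻ ω, V (Z.Y k ω) ∂ℙ := by
  classical
  rw [lintegral_Y Z (k + 1), lintegral_Y Z k]
  rw [← (Fin.snocEquiv (fun _ : Fin (k + 2) => State n d)).tsum_eq]
  have key : ∀ (b : State n d) (w : Fin (k + 1) → State n d),
      ℙ {ω | ∀ j : Fin (k + 1 + 1), Z.Y j ω =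
        ((Fin.snocEquiv (fun _ : Fin (k + 2) => State n d)) (b, w)) j} *
        V (((Fin.snocEquiv (fun _ : Fin (k + 2) => State n d)) (b, w)) (Fin.last (k + 1))) =
      ℙ {ω | ∀ j : Fin (k + 1), Z.Y j ω = w j} *
        (ENNReal.ofReal (jump N κ (w (Fin.last k)) b) * V b) := by
    intro b w
    have e1 : ((Fin.snocEquiv (fun _ : Fin (k + 2) => State n d)) (b, w)) (Fin.last (k + 1)) = b := by
      simp [Fin.snocEquiv]
    have e2 : ∀ j : Fin (k + 1),
        ((Fin.snocEquiv (fun _ : Fin (k + 2) => State n d)) (b, w)) j.castSucc = w j := by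
      intro j; simp [Fin.snocEquiv]
    rw [e1, ← mul_assoc]
    congr 1
    set z : ℕ → State n d := fun j => if h : j < k + 1 then w ⟨j, h⟩ else b with hz
    have h1 := markov Z hκ k z b
    have h2 : {ω | (∀ j ≤ k, Z.Y j ω = z j) ∧ Z.Y (k + 1) ω = b} =
        {ω | ∀ j : Fin (k + 1 + 1), Z.Y j ω =
        ((Fin.snocEquiv (fun _ : Fin (k + 2) => State n d)) (b, w)) j} := by
      ext ω
      simp only [Set.mem_ofPred_eq]
      rw [Fin.forall_fin_succ']
      constructor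
      · rintro ⟨h3, h4⟩
        refine ⟨fun j => ?_, ?_⟩
        · rw [e2 j]
          have := h3 j (by omega)
          simp only [hz, dif_pos j.2] at this
          exact this
        · rw [e1]; exact h4
      · rintro ⟨h3, h4⟩
        refine ⟨fun j hj => ?_, ?_⟩
        · have hj' : j < k + 1 := by omega
          have := h3 ⟨j, hj'⟩
          rw [e2 ⟨j, hj'⟩] at this
          simp only [hz, dif_pos hj']
          exact this
        · rw [e1] at h4; exact h4
    rw [← h2, h1]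
    have h3 : z k = w (Fin.last k) := by
      simp only [hz, dif_pos (Nat.lt_succ_self k)]
      rfl
    rw [h3]
    congr 2
    ext ω
    simp only [Set.mem_ofPred_eq]
    constructor
    · intro h j
      have := h j (by omega)
      simp only [hz, dif_pos j.2] at this
      exact this
    · intro h j hj
      have hj' : j < k + 1 := by omega
      simp only [hz, dif_pos hj']
      exact h ⟨j, hj'⟩
  calc ∑' p : State n d × (Fin (k + 1) → State n d),
        ℙ {ω | ∀ j : Fin (k + 1 + 1), Z.Y j ω =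
        ((Fin.snocEquiv (fun _ : Fin (k + 2) => State n d)) p) j} *
        V (((Fin.snocEquiv (fun _ : Fin (k + 2) => State n d)) p) (Fin.last (k + 1)))
      = ∑' p : State n d × (Fin (k + 1) → State n d), ℙ {ω | ∀ j : Fin (k + 1), Z.Y j ω = p.2 j} *
        (ENNReal.ofReal (jump N κ (p.2 (Fin.last k)) p.1) * V p.1) :=
        tsum_congr fun p => key p.1 p.2
    _ = ∑' (b : State n d) (w : Fin (k + 1) → State n d),
        ℙ {ω | ∀ j : Fin (k + 1), Z.Y j ω = w j} *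
        (ENNReal.ofReal (jump N κ (w (Fin.last k)) b) * V b) := ENNReal.tsum_prod
          (f := fun (b : State n d) (w : Fin (k + 1) → State n d) => ℙ {ω | ∀ j : Fin (k + 1), Z.Y j ω = w j} *
            (ENNReal.ofReal (jump N κ (w (Fin.last k)) b) * V b))
    _ = ∑' (w : Fin (k + 1) → State n d) (b : State n d),
        ℙ {ω | ∀ j : Fin (k + 1), Z.Y j ω = w j} *
        (ENNReal.ofReal (jump N κ (w (Fin.last k)) b) * V b) := ENNReal.tsum_comm
    _ ≤ ∑' w : Fin (k + 1) → State n d,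
      ℙ {ω | ∀ j : Fin (k + 1), Z.Y j ω = w j} * V (w (Fin.last k)) := by
        apply ENNReal.tsum_le_tsum
        intro w
        rw [ENNReal.tsum_mul_left]
        gcongr
        exact hV _

theorem meas_V (k : ℕ) (V : State n d → ℝ≥0∞) : Measurable fun ω => V (Z.Y k ω) := by
  intro S _
  have : (fun ω => V (Z.Y k ω)) ⁻¹' S = ⋃ z ∈ V ⁻¹' S, {ω | Z.Y k ω = z} := by
    ext ω; simp
  rw [this]
  exact MeasurableSet.biUnion (Set.to_countable _) fun z _ => Z.Y_meas k z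

theorem Y_zero (V : State n d → ℝ≥0∞) : ∫⁻ ω, V (Z.Y 0 ω) ∂ℙ = V z₀ := by
  have h := path_law Z 0 (fun _ => z₀)
  simp only [Nat.le_zero, forall_eq, if_true, Finset.range_zero, Finset.prod_empty, mul_one,
    ENNReal.ofReal_one] at h
  have h2 : ∀ᵐ ω ∂ℙ, Z.Y 0 ω = z₀ := by
    have h3 := (mem_ae_iff_prob_eq_one (Z.Y_meas 0 z₀)).2 h
    exact h3
  rw [lintegral_congr_ae (g := fun _ => V z₀) (h2.mono fun ω hω => by simp only [hω])]
  simp

theorem not_escape (hκ : 0 < κ) (V : State n d → ℝ≥0∞)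
    (hV : ∀ z, ∑' b, ENNReal.ofReal (jump N κ z b) * V b ≤ V z) (hfin : ∀ z, V z ≠ ⊤)
    (g : ℕ → ℝ≥0∞) (hg : Tendsto g atTop (𝓝 ⊤)) (hgV : ∀ z : State n d, g (norm1 z.1) ≤ V z) :
    ℙ (Escapes Z) = 0 := by
  have h1 : ∀ k, ∫⁻ ω, V (Z.Y k ω) ∂ℙ ≤ V z₀ := by
    intro k
    induction k with
    | zero => exact (Y_zero Z V).le
    | succ k ih => exact (Y_super Z hκ V hV k).trans ih
  have h2 : ∫⁻ ω, liminf (fun k => V (Z.Y k ω)) atTop ∂ℙ ≤ V z₀ := by
    refine (lintegral_liminf_le (fun k => meas_V Z k V)).trans ?_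
    refine liminf_le_of_frequently_le' ?_
    exact Frequently.of_forall h1
  have h3 : ∀ᵐ ω ∂ℙ, liminf (fun k => V (Z.Y k ω)) atTop < ⊤ :=
    ae_lt_top (Measurable.liminf fun k => meas_V Z k V) (h2.trans_lt (hfin z₀).lt_top).ne
  refine measure_mono_null (escapes_subset Z) ?_
  refine measure_mono_null ?_ (ae_iff.1 h3)
  intro ω hω
  simp only [Set.mem_ofPred_eq, not_lt, top_le_iff] at hω ⊢
  have h4 : Tendsto (fun k => V (Z.Y k ω)) atTop (𝓝 ⊤) :=
    tendsto_nhds_top_mono (hg.comp hω) (Eventually.of_forall fun k => hgV _)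
  exact h4.liminf_eq

end general

theorem drift_to_super {N : Network n d} {κ : ℝ} (hκ : 0 < κ) (v : State n d → ℝ)
    (hv : ∀ z, 0 ≤ v z) (z : State n d)
    (hd : ∑ r ∈ N.R z.2, lam N z.2 r z.1 * (v (z.1 - r.1 + r.2, z.2) - v z) +
      ∑ j ∈ univ.erase z.2, κ * N.Q z.2 j * (v (z.1, j) - v z) ≤ 0) :
    ∑' b, ENNReal.ofReal (jump N κ z b) * ENNReal.ofReal (v b) ≤ ENNReal.ofReal (v z) := by
  classical
  have hl : ∀ r ∈ N.R z.2, 0 ≤ lam N z.2 r z.1 := fun r hr =>
    mul_nonneg (N.c_pos _ r hr).le (Finset.prod_nonneg fun _ _ => Nat.cast_nonneg _)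
  have hq : ∀ j ∈ univ.erase z.2, 0 ≤ κ * N.Q z.2 j := fun j hj =>
    mul_nonneg hκ.le (N.Q_nonneg _ _ (Finset.ne_of_mem_erase hj).symm)
  have ht0 : 0 ≤ total N κ z := add_nonneg (Finset.sum_nonneg hl) (Finset.sum_nonneg hq)
  set B : Finset (State n d) := (N.R z.2).image (fun r => (z.1 - r.1 + r.2, z.2)) ∪
    (univ.erase z.2).image (fun j => (z.1, j)) with hB
  have h0 : ∀ b ∉ B, ENNReal.ofReal (jump N κ z b) * ENNReal.ofReal (v b) = 0 := by
    intro b hb
    rw [hB, Finset.notMem_union] at hb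
    have : jump N κ z b = 0 := by
      unfold jump
      rw [Finset.sum_eq_zero, Finset.sum_eq_zero]
      · simp
      · intro j hj
        rw [if_neg]
        rintro rfl
        exact hb.2 (Finset.mem_image_of_mem _ hj)
      · intro r hr
        rw [if_neg]
        rintro rfl
        exact hb.1 (Finset.mem_image_of_mem _ hr)
    rw [this]; simp
  rw [tsum_eq_sum h0]
  have h1 : ∀ b, ENNReal.ofReal (jump N κ z b) * ENNReal.ofReal (v b) =
      ENNReal.ofReal (jump N κ z b * v b) := fun b =>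
    (ENNReal.ofReal_mul (jump_nonneg hκ z b)).symm
  simp only [h1]
  rw [← ENNReal.ofReal_sum_of_nonneg (fun b _ => mul_nonneg (jump_nonneg hκ z b) (hv b))]
  apply ENNReal.ofReal_le_ofReal
  rcases ht0.eq_or_lt with ht | ht
  · have : ∀ b, jump N κ z b = 0 := by
      intro b; unfold jump; rw [← ht, div_zero]
    simp only [this, zero_mul, Finset.sum_const_zero]
    exact hv z
  · have h2 : ∑ b ∈ B, jump N κ z b * v b =
        (∑ r ∈ N.R z.2, lam N z.2 r z.1 * v (z.1 - r.1 + r.2, z.2) +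
          ∑ j ∈ univ.erase z.2, κ * N.Q z.2 j * v (z.1, j)) / total N κ z := by
      have h3 : ∀ b, jump N κ z b * v b =
          (∑ r ∈ N.R z.2, (if b = (z.1 - r.1 + r.2, z.2) then
              lam N z.2 r z.1 * v (z.1 - r.1 + r.2, z.2) else 0) +
            ∑ j ∈ univ.erase z.2, (if b = (z.1, j) then κ * N.Q z.2 j * v (z.1, j) else 0)) /
            total N κ z := by
        intro b
        unfold jump
        rw [div_mul_eq_mul_div, add_mul, Finset.sum_mul, Finset.sum_mul]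
        congr 2
        · refine Finset.sum_congr rfl fun r _ => ?_
          split_ifs with h
          · rw [h]
          · rw [zero_mul]
        · refine Finset.sum_congr rfl fun j _ => ?_
          split_ifs with h
          · rw [h]
          · rw [zero_mul]
      rw [Finset.sum_congr rfl fun b _ => h3 b, ← Finset.sum_div, Finset.sum_add_distrib]
      congr 2
      · rw [Finset.sum_comm]
        refine Finset.sum_congr rfl fun r hr => ?_
        rw [Finset.sum_ite_eq' B, if_pos]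
        exact Finset.mem_union_left _ (Finset.mem_image_of_mem _ hr)
      · rw [Finset.sum_comm]
        refine Finset.sum_congr rfl fun j hj => ?_
        rw [Finset.sum_ite_eq' B, if_pos]
        exact Finset.mem_union_right _ (Finset.mem_image_of_mem _ hj)
    rw [h2, div_le_iff₀ ht]
    simp only [mul_sub, Finset.sum_sub_distrib] at hd
    have h4 : v z * total N κ z = ∑ r ∈ N.R z.2, lam N z.2 r z.1 * v z +
        ∑ j ∈ univ.erase z.2, κ * N.Q z.2 j * v z := by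
      unfold total
      rw [mul_add, Finset.mul_sum, Finset.mul_sum]
      congr 1
      · exact Finset.sum_congr rfl fun _ _ => mul_comm _ _
      · exact Finset.sum_congr rfl fun _ _ => mul_comm _ _
    rw [h4]
    linarith


section example_network

/-- Environment `0`: `S₁ → 2 S₀`, `S₀ → 2 S₀` (rate 1), `S₂ → 0` (rate 2).
Environment `1`: `S₁ → 2 S₂`, `S₂ → 2 S₂` (rate 1), `S₀ → 0` (rate 2). -/
noncomputable def net : Network 2 3 where
  R := ![{(![0, 1, 0], ![2, 0, 0]), (![1, 0, 0], ![2, 0, 0]), (![0, 0, 1], ![0, 0, 0])},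
    {(![0, 1, 0], ![0, 0, 2]), (![0, 0, 1], ![0, 0, 2]), (![1, 0, 0], ![0, 0, 0])}]
  c := fun _ r => if r.2 = ![0, 0, 0] then 2 else 1
  c_pos := by
    intro i r _
    split_ifs <;> norm_num
  Q := fun i j => if i = j then -1 else 1
  Q_nonneg := by
    intro i j h
    rw [if_neg h]; norm_num
  Q_sum := by
    intro i
    fin_cases i <;> simp [Fin.sum_univ_two]
  Q_irred := by
    intro i j
    by_cases h : i = j
    · rw [h]
    · exact Relation.ReflTransGen.single ⟨h, by rw [if_neg h]; norm_num⟩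

theorem net_mono : Monomolecular net := by
  intro i r hr
  right
  fin_cases i
  · have hr' : r ∈ ({(![0, 1, 0], ![2, 0, 0]), (![1, 0, 0], ![2, 0, 0]),
      (![0, 0, 1], ![0, 0, 0])} : Finset (Reaction 3)) := hr
    clear hr
    simp only [Finset.mem_insert, Finset.mem_singleton] at hr'
    rcases hr' with rfl | rfl | rfl
    · exact ⟨1, by decide⟩
    · exact ⟨0, by decide⟩
    · exact ⟨2, by decide⟩
  · have hr' : r ∈ ({(![0, 1, 0], ![0, 0, 2]), (![0, 0, 1], ![0, 0, 2]),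
      (![1, 0, 0], ![0, 0, 0])} : Finset (Reaction 3)) := hr
    clear hr
    simp only [Finset.mem_insert, Finset.mem_singleton] at hr'
    rcases hr' with rfl | rfl | rfl
    · exact ⟨1, by decide⟩
    · exact ⟨2, by decide⟩
    · exact ⟨0, by decide⟩

/-- the sums over the reactions of environment `0` -/
theorem sum_R0 (f : Reaction 3 → ℝ) : ∑ r ∈ net.R 0, f r =
    f (![0, 1, 0], ![2, 0, 0]) + f (![1, 0, 0], ![2, 0, 0]) + f (![0, 0, 1], ![0, 0, 0]) := by
  show ∑ r ∈ ({(![0, 1, 0], ![2, 0, 0]), (![1, 0, 0], ![2, 0, 0]), (![0, 0, 1], ![0, 0, 0])} :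
    Finset (Reaction 3)), f r = _
  rw [Finset.sum_insert (by decide), Finset.sum_insert (by decide), Finset.sum_singleton]
  ring

theorem sum_R1 (f : Reaction 3 → ℝ) : ∑ r ∈ net.R 1, f r =
    f (![0, 1, 0], ![0, 0, 2]) + f (![0, 0, 1], ![0, 0, 2]) + f (![1, 0, 0], ![0, 0, 0]) := by
  show ∑ r ∈ ({(![0, 1, 0], ![0, 0, 2]), (![0, 0, 1], ![0, 0, 2]), (![1, 0, 0], ![0, 0, 0])} :
    Finset (Reaction 3)), f r = _
  rw [Finset.sum_insert (by decide), Finset.sum_insert (by decide), Finset.sum_singleton]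
  ring

theorem M0 (m l : Fin 3) : M net 0 m l =
    (if l = 1 then (![2, -1, 0] : Fin 3 → ℝ) m else 0) +
    (if l = 0 then (![1, 0, 0] : Fin 3 → ℝ) m else 0) +
    (if l = 2 then (![0, 0, -2] : Fin 3 → ℝ) m else 0) := by
  unfold M
  rw [Finset.sum_filter, sum_R0]
  have h1 : ∀ l : Fin 3, ((![0, 1, 0] : Fin 3 → ℕ) = Pi.single l 1) ↔ l = 1 := by decide
  have h2 : ∀ l : Fin 3, ((![1, 0, 0] : Fin 3 → ℕ) = Pi.single l 1) ↔ l = 0 := by decide
  have h3 : ∀ l : Fin 3, ((![0, 0, 1] : Fin 3 → ℕ) = Pi.single l 1) ↔ l = 2 := by decide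
  simp only [h1, h2, h3]
  fin_cases m <;> simp [net] <;> norm_num

theorem M1 (m l : Fin 3) : M net 1 m l =
    (if l = 1 then (![0, -1, 2] : Fin 3 → ℝ) m else 0) +
    (if l = 2 then (![0, 0, 1] : Fin 3 → ℝ) m else 0) +
    (if l = 0 then (![-2, 0, 0] : Fin 3 → ℝ) m else 0) := by
  unfold M
  rw [Finset.sum_filter, sum_R1]
  have h1 : ∀ l : Fin 3, ((![0, 1, 0] : Fin 3 → ℕ) = Pi.single l 1) ↔ l = 1 := by decide
  have h2 : ∀ l : Fin 3, ((![1, 0, 0] : Fin 3 → ℕ) = Pi.single l 1) ↔ l = 0 := by decide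
  have h3 : ∀ l : Fin 3, ((![0, 0, 1] : Fin 3 → ℕ) = Pi.single l 1) ↔ l = 2 := by decide
  simp only [h1, h2, h3]
  fin_cases m <;> simp [net] <;> norm_num

/-- the vectors `v⁰ = (1,1,0)`, `v¹ = (0,1,1)` -/
def vec : Fin 2 → Fin 3 → ℝ := ![![1, 1, 0], ![0, 1, 1]]

theorem vec_spec (i : Fin 2) (m : Fin 3) (h : vec i m ≠ 0) :
    0 < ∑ l, vec i l * M net i l m := by
  fin_cases i
  · simp only [Fin.zero_eta, M0, Fin.sum_univ_three, vec]
    fin_cases m
    · simp
    · simp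
    · simp [vec] at h
  · simp only [Fin.mk_one, M1, Fin.sum_univ_three, vec]
    fin_cases m
    · simp [vec] at h
    · simp
    · simp

/-! ### the supermartingale -/

theorem pow_up (θ : ℝ) (h0 : 0 < θ) (h1 : θ ≤ 1) (x : ℕ) :
    (x : ℝ) * (((x + 1 : ℕ) : ℝ) ^ θ - (x : ℝ) ^ θ) ≤ θ * (x : ℝ) ^ θ := by
  rcases Nat.eq_zero_or_pos x with rfl | hx
  · simp [Real.zero_rpow h0.ne']
  · have hx' : (0 : ℝ) < x := by exact_mod_cast hx
    have e1 : ((x + 1 : ℕ) : ℝ) = x * (1 + 1 / x) := by push_cast; field_simp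
    rw [e1, Real.mul_rpow hx'.le (by positivity)]
    have h2 : (1 + 1 / (x : ℝ)) ^ θ ≤ 1 + θ * (1 / x) :=
      rpow_one_add_le_one_add_mul_self
        (le_trans (by norm_num) (show (0 : ℝ) ≤ 1 / (x : ℝ) by positivity)) h0.le h1
    have h3 : 0 < (x : ℝ) ^ θ := Real.rpow_pos_of_pos hx' _
    have h4 : (x : ℝ) ^ θ * (1 + 1 / x) ^ θ - (x : ℝ) ^ θ ≤ (x : ℝ) ^ θ * (θ * (1 / x)) := by
      nlinarith
    calc (x : ℝ) * ((x : ℝ) ^ θ * (1 + 1 / x) ^ θ - (x : ℝ) ^ θ)
        ≤ x * ((x : ℝ) ^ θ * (θ * (1 / x))) := mul_le_mul_of_nonneg_left h4 hx'.le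
      _ = θ * (x : ℝ) ^ θ := by field_simp

theorem pow_down (θ : ℝ) (h0 : 0 < θ) (h1 : θ ≤ 1) (x : ℕ) :
    (x : ℝ) * (((x - 1 : ℕ) : ℝ) ^ θ - (x : ℝ) ^ θ) ≤ -(θ * (x : ℝ) ^ θ) := by
  rcases Nat.eq_zero_or_pos x with rfl | hx
  · simp [Real.zero_rpow h0.ne']
  · have hx' : (0 : ℝ) < x := by exact_mod_cast hx
    have hx1 : (1 : ℝ) ≤ x := by exact_mod_cast hx
    have hle : 1 / (x : ℝ) ≤ 1 := by rw [div_le_one hx']; exact hx1
    have e1 : ((x - 1 : ℕ) : ℝ) = x * (1 + -(1 / x)) := by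
      rw [Nat.cast_sub hx]; push_cast; field_simp; ring
    rw [e1, Real.mul_rpow hx'.le (by linarith)]
    have h2 : (1 + -(1 / (x : ℝ))) ^ θ ≤ 1 + θ * (-(1 / x)) :=
      rpow_one_add_le_one_add_mul_self (by linarith) h0.le h1
    have h3 : 0 < (x : ℝ) ^ θ := Real.rpow_pos_of_pos hx' _
    have h4 : (x : ℝ) ^ θ * (1 + -(1 / x)) ^ θ - (x : ℝ) ^ θ ≤ (x : ℝ) ^ θ * (θ * (-(1 / x))) := by
      nlinarith
    calc (x : ℝ) * ((x : ℝ) ^ θ * (1 + -(1 / x)) ^ θ - (x : ℝ) ^ θ)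
        ≤ x * ((x : ℝ) ^ θ * (θ * (-(1 / x)))) := mul_le_mul_of_nonneg_left h4 hx'.le
      _ = -(θ * (x : ℝ) ^ θ) := by field_simp

theorem pow_two (θ : ℝ) (h0 : 0 < θ) (h1 : θ ≤ 1) (x : ℕ) :
    ((x + 2 : ℕ) : ℝ) ^ θ - (x : ℝ) ^ θ ≤ 2 := by
  have h2 : ((x + 2 : ℕ) : ℝ) ^ θ ≤ (x : ℝ) ^ θ + (2 : ℝ) ^ θ := by
    push_cast
    exact Real.rpow_add_le_add_rpow (by positivity) (by norm_num) h0.le h1
  have h3 : (2 : ℝ) ^ θ ≤ 2 := by
    calc (2 : ℝ) ^ θ ≤ (2 : ℝ) ^ (1 : ℝ) := Real.rpow_le_rpow_of_exponent_le (by norm_num) h1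
      _ = 2 := by norm_num
  linarith

/-- the supermartingale function -/
noncomputable def lyap (θ a : ℝ) (z : State 2 3) : ℝ :=
  (if z.2 = 0 then a else 1) * (z.1 0 : ℝ) ^ θ + (if z.2 = 0 then 1 else a) * (z.1 2 : ℝ) ^ θ +
    4 * (z.1 1 : ℝ)

theorem lyap_drift (κ θ a : ℝ) (hκ : 0 < κ) (h0 : 0 < θ) (h1 : θ ≤ 1) (ha1 : 1 ≤ a) (ha2 : a ≤ 2)
    (ha : κ * (a - 1) = 2 * θ) (z : State 2 3) :
    ∑ r ∈ net.R z.2, lam net z.2 r z.1 * (lyap θ a (z.1 - r.1 + r.2, z.2) - lyap θ a z) +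
      ∑ j ∈ univ.erase z.2, κ * net.Q z.2 j * (lyap θ a (z.1, j) - lyap θ a z) ≤ 0 := by
  obtain ⟨x, i⟩ := z
  have p0 : 0 ≤ (x 0 : ℝ) ^ θ := by positivity
  have p2 : 0 ≤ (x 2 : ℝ) ^ θ := by positivity
  have x1 : (0 : ℝ) ≤ x 1 := Nat.cast_nonneg _
  have l1 : ∀ i y, lam net i (![0, 1, 0], y) x = (if y = ![0, 0, 0] then 2 else 1) * x 1 := by
    intro i y; simp [lam, net, Fin.prod_univ_three]
  have l0 : ∀ i y, lam net i (![1, 0, 0], y) x = (if y = ![0, 0, 0] then 2 else 1) * x 0 := by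
    intro i y; simp [lam, net, Fin.prod_univ_three]
  have l2 : ∀ i y, lam net i (![0, 0, 1], y) x = (if y = ![0, 0, 0] then 2 else 1) * x 2 := by
    intro i y; simp [lam, net, Fin.prod_univ_three]
  have n1 : (![2, 0, 0] : Fin 3 → ℕ) ≠ ![0, 0, 0] := by decide
  have n2 : (![0, 0, 2] : Fin 3 → ℕ) ≠ ![0, 0, 0] := by decide
  fin_cases i
  · simp only [Fin.zero_eta]
    rw [sum_R0]
    have e1 : (univ : Finset (Fin 2)).erase 0 = {1} := by decide
    rw [e1, Finset.sum_singleton, l1, l0, l2, if_neg n1, if_pos rfl]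
    have hQ : net.Q 0 1 = 1 := by simp [net]
    rw [hQ]
    have u0 := pow_up θ h0 h1 (x 0)
    have d2 := pow_down θ h0 h1 (x 2)
    have t0 := pow_two θ h0 h1 (x 0)
    have v1 : (x 1 : ℝ) * (lyap θ a (x - ![0, 1, 0] + ![2, 0, 0], 0) - lyap θ a (x, 0)) ≤ 0 := by
      rcases Nat.eq_zero_or_pos (x 1) with hx | hx
      · rw [hx]; simp
      · have : ((x 1 - 1 : ℕ) : ℝ) = x 1 - 1 := by rw [Nat.cast_sub hx]; simp
        have e2 : lyap θ a (x - ![0, 1, 0] + ![2, 0, 0], 0) - lyap θ a (x, 0) =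
            a * (((x 0 + 2 : ℕ) : ℝ) ^ θ - (x 0 : ℝ) ^ θ) - 4 := by
          simp only [lyap, Pi.add_apply, Pi.sub_apply]
          simp [this]
          ring
        rw [e2]
        apply mul_nonpos_of_nonneg_of_nonpos x1
        have := mul_le_mul_of_nonneg_left t0 (show (0 : ℝ) ≤ a by linarith)
        linarith
    have v2 : (x 0 : ℝ) * (lyap θ a (x - ![1, 0, 0] + ![2, 0, 0], 0) - lyap θ a (x, 0)) ≤
        a * (θ * (x 0 : ℝ) ^ θ) := by
      rcases Nat.eq_zero_or_pos (x 0) with hx | hx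
      · rw [hx]; simp [Real.zero_rpow h0.ne']
      · have : x 0 - 1 + 2 = x 0 + 1 := by omega
        have e2 : lyap θ a (x - ![1, 0, 0] + ![2, 0, 0], 0) - lyap θ a (x, 0) =
            a * (((x 0 + 1 : ℕ) : ℝ) ^ θ - (x 0 : ℝ) ^ θ) := by
          simp only [lyap, Pi.add_apply, Pi.sub_apply]
          simp [this]
          ring
        rw [e2]
        nlinarith
    have v3 : (x 2 : ℝ) * (lyap θ a (x - ![0, 0, 1] + ![0, 0, 0], 0) - lyap θ a (x, 0)) ≤
        -(θ * (x 2 : ℝ) ^ θ) := by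
      have e2 : lyap θ a (x - ![0, 0, 1] + ![0, 0, 0], 0) - lyap θ a (x, 0) =
            (((x 2 - 1 : ℕ) : ℝ) ^ θ - (x 2 : ℝ) ^ θ) := by
          simp only [lyap, Pi.add_apply, Pi.sub_apply]
          simp
      rw [e2]
      exact d2
    have v4 : lyap θ a (x, 1) - lyap θ a (x, 0) =
        (1 - a) * (x 0 : ℝ) ^ θ + (a - 1) * (x 2 : ℝ) ^ θ := by
      simp [lyap]; ring
    rw [v4]
    have v5 : κ * 1 * ((1 - a) * (x 0 : ℝ) ^ θ + (a - 1) * (x 2 : ℝ) ^ θ) =
        2 * θ * (x 2 : ℝ) ^ θ - 2 * θ * (x 0 : ℝ) ^ θ := by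
      rw [← ha]; ring
    rw [v5]
    have v6 : a * (θ * (x 0 : ℝ) ^ θ) ≤ 2 * (θ * (x 0 : ℝ) ^ θ) :=
      mul_le_mul_of_nonneg_right ha2 (mul_nonneg h0.le p0)
    nlinarith
  · simp only [Fin.mk_one]
    rw [sum_R1]
    have e1 : (univ : Finset (Fin 2)).erase 1 = {0} := by decide
    rw [e1, Finset.sum_singleton, l1, l0, l2, if_neg n2, if_pos rfl]
    have hQ : net.Q 1 0 = 1 := by simp [net]
    rw [hQ]
    have u2 := pow_up θ h0 h1 (x 2)
    have d0 := pow_down θ h0 h1 (x 0)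
    have t2 := pow_two θ h0 h1 (x 2)
    have v1 : (x 1 : ℝ) * (lyap θ a (x - ![0, 1, 0] + ![0, 0, 2], 1) - lyap θ a (x, 1)) ≤ 0 := by
      rcases Nat.eq_zero_or_pos (x 1) with hx | hx
      · rw [hx]; simp
      · have : ((x 1 - 1 : ℕ) : ℝ) = x 1 - 1 := by rw [Nat.cast_sub hx]; simp
        have e2 : lyap θ a (x - ![0, 1, 0] + ![0, 0, 2], 1) - lyap θ a (x, 1) =
            a * (((x 2 + 2 : ℕ) : ℝ) ^ θ - (x 2 : ℝ) ^ θ) - 4 := by
          simp only [lyap, Pi.add_apply, Pi.sub_apply]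
          simp [this]
          ring
        rw [e2]
        apply mul_nonpos_of_nonneg_of_nonpos x1
        have := mul_le_mul_of_nonneg_left t2 (show (0 : ℝ) ≤ a by linarith)
        linarith
    have v2 : (x 2 : ℝ) * (lyap θ a (x - ![0, 0, 1] + ![0, 0, 2], 1) - lyap θ a (x, 1)) ≤
        a * (θ * (x 2 : ℝ) ^ θ) := by
      rcases Nat.eq_zero_or_pos (x 2) with hx | hx
      · rw [hx]; simp [Real.zero_rpow h0.ne']
      · have : x 2 - 1 + 2 = x 2 + 1 := by omega
        have e2 : lyap θ a (x - ![0, 0, 1] + ![0, 0, 2], 1) - lyap θ a (x, 1) =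
            a * (((x 2 + 1 : ℕ) : ℝ) ^ θ - (x 2 : ℝ) ^ θ) := by
          simp only [lyap, Pi.add_apply, Pi.sub_apply]
          simp [this]
          ring
        rw [e2]
        nlinarith
    have v3 : (x 0 : ℝ) * (lyap θ a (x - ![1, 0, 0] + ![0, 0, 0], 1) - lyap θ a (x, 1)) ≤
        -(θ * (x 0 : ℝ) ^ θ) := by
      have e2 : lyap θ a (x - ![1, 0, 0] + ![0, 0, 0], 1) - lyap θ a (x, 1) =
            (((x 0 - 1 : ℕ) : ℝ) ^ θ - (x 0 : ℝ) ^ θ) := by
          simp only [lyap, Pi.add_apply, Pi.sub_apply]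
          simp
      rw [e2]
      exact d0
    have v4 : lyap θ a (x, 0) - lyap θ a (x, 1) =
        (a - 1) * (x 0 : ℝ) ^ θ + (1 - a) * (x 2 : ℝ) ^ θ := by
      simp [lyap]; ring
    rw [v4]
    have v5 : κ * 1 * ((a - 1) * (x 0 : ℝ) ^ θ + (1 - a) * (x 2 : ℝ) ^ θ) =
        2 * θ * (x 0 : ℝ) ^ θ - 2 * θ * (x 2 : ℝ) ^ θ := by
      rw [← ha]; ring
    rw [v5]
    have v6 : a * (θ * (x 2 : ℝ) ^ θ) ≤ 2 * (θ * (x 2 : ℝ) ^ θ) :=
      mul_le_mul_of_nonneg_right ha2 (mul_nonneg h0.le p2)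
    nlinarith

theorem lyap_lower (θ a : ℝ) (h0 : 0 < θ) (h1 : θ ≤ 1) (ha1 : 1 ≤ a) (z : State 2 3) :
    ((norm1 z.1 : ℝ) / 3) ^ θ ≤ lyap θ a z := by
  obtain ⟨x, i⟩ := z
  have p0 : 0 ≤ (x 0 : ℝ) ^ θ := by positivity
  have p2 : 0 ≤ (x 2 : ℝ) ^ θ := by positivity
  have x1 : (x 1 : ℝ) ^ θ ≤ x 1 := by
    rcases Nat.eq_zero_or_pos (x 1) with hx | hx
    · rw [hx]; simp [Real.zero_rpow h0.ne']
    · have hx1 : (1 : ℝ) ≤ x 1 := by exact_mod_cast hx
      calc (x 1 : ℝ) ^ θ ≤ (x 1 : ℝ) ^ (1 : ℝ) := Real.rpow_le_rpow_of_exponent_le hx1 h1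
        _ = x 1 := Real.rpow_one _
  have p1 : (0 : ℝ) ≤ x 1 := Nat.cast_nonneg _
  have hn : (norm1 x : ℝ) = x 0 + x 1 + x 2 := by
    unfold norm1
    rw [Fin.sum_univ_three]; push_cast; rfl
  have hl : (x 0 : ℝ) ^ θ + (x 2 : ℝ) ^ θ + x 1 ≤ lyap θ a (x, i) := by
    unfold lyap
    simp only
    split_ifs <;> nlinarith
  refine le_trans ?_ hl
  simp only
  have hx0 : (0 : ℝ) ≤ x 0 := Nat.cast_nonneg _
  have hx2 : (0 : ℝ) ≤ x 2 := Nat.cast_nonneg _
  have mono : ∀ y : ℝ, (norm1 x : ℝ) / 3 ≤ y → ((norm1 x : ℝ) / 3) ^ θ ≤ y ^ θ := fun y hy =>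
    Real.rpow_le_rpow (by positivity) hy h0.le
  rcases le_total (x 0 : ℝ) (x 1) with h | h
  · rcases le_total (x 1 : ℝ) (x 2) with h' | h'
    · have := mono (x 2) (by rw [hn]; linarith)
      linarith
    · have := mono (x 1) (by rw [hn]; linarith)
      linarith
  · rcases le_total (x 0 : ℝ) (x 2) with h' | h'
    · have := mono (x 2) (by rw [hn]; linarith)
      linarith
    · have := mono (x 0) (by rw [hn]; linarith)
      linarith

theorem net_not_evanescent (κ : ℝ) (hκ : 0 < κ) (z₀ : State 2 3) : NotEvanescent net κ z₀ := by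
  intro Ω _ ℙ _ Z
  set θ : ℝ := min 1 κ / 2 with hθ
  have hm : 0 < min 1 κ := lt_min one_pos hκ
  have h0 : 0 < θ := by positivity
  have h1 : θ ≤ 1 := by
    have := min_le_left 1 κ
    rw [hθ]; linarith
  have h2 : 2 * θ ≤ κ := by
    have := min_le_right 1 κ
    rw [hθ]; linarith
  set a : ℝ := 1 + 2 * θ / κ with ha
  have ha1 : 1 ≤ a := by
    have : 0 ≤ 2 * θ / κ := by positivity
    linarith
  have ha2 : a ≤ 2 := by
    have : 2 * θ / κ ≤ 1 := by rw [div_le_one hκ]; exact h2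
    linarith
  have ha3 : κ * (a - 1) = 2 * θ := by rw [ha]; field_simp; ring
  have hv : ∀ z, 0 ≤ lyap θ a z := by
    intro z
    exact le_trans (by positivity) (lyap_lower θ a h0 h1 ha1 z)
  refine not_escape Z hκ (fun z => ENNReal.ofReal (lyap θ a z))
    (fun z => drift_to_super hκ _ hv z (lyap_drift κ θ a hκ h0 h1 ha1 ha2 ha3 z))
    (fun z => ENNReal.ofReal_ne_top) (fun k => ENNReal.ofReal (((k : ℝ) / 3) ^ θ)) ?_
    (fun z => ENNReal.ofReal_le_ofReal (lyap_lower θ a h0 h1 ha1 z))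
  apply ENNReal.tendsto_ofReal_nhds_top.2
  exact (tendsto_rpow_atTop h0).comp
    (tendsto_natCast_atTop_atTop.atTop_div_const (by norm_num))

end example_network

/-- Q1 is false: there is a data set satisfying all hypotheses for which no state is evanescent,
for any switching speed. -/
theorem result : ∃ (N : Network 2 3) (v : Fin 2 → Fin 3 → ℝ),
    Monomolecular N ∧
    (∀ i m, 0 ≤ v i m) ∧
    (∀ i m, v i m ≠ 0 → 0 < ∑ l, v i l * M N i l m) ∧
    (∃ m, ∀ j, v j m ≠ 0) ∧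
    (∀ κ : ℝ, 0 < κ → ∀ z : State 2 3, NotEvanescent N κ z) := by
  refine ⟨net, vec, net_mono, ?_, vec_spec, ⟨1, ?_⟩, net_not_evanescent⟩
  · intro i m
    fin_cases i <;> fin_cases m <;> simp [vec]
  · intro j
    fin_cases j <;> simp [vec]

end Pool.Agent.Results.MP_adc20b_pr.SlowSwitchingNotEvanescent
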